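import Pool.Agent.Q212.UT4

/-!
# Countably branching weakly unordered trees in ZF

There is a countable transitive model `M` of ZF in which the homomorphism from the initial algebra
of the countably branching trees to the initial algebra of the countably branching weakly
unordered trees is not surjective.
-/

set_option autoImplicit false

namespace Pool.Agent.Results.MP_bed2f3_lc.WeaklyUnorderedTreesNotCovered

open Pool.Agent.W868 Pool.Agent.Q212.UT
open ZFSet (pair)

theorem result : ∃ M : Set ZFSet.{0}, M.Countable ∧ IsZF M ∧ ∃ W l α T l' τ h,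
    IsTrees M W l α ∧ IsWeaklyUnorderedTrees M T l' τ ∧ h ∈ M ∧ IsHom W l α T l' τ h ∧
      ∃ t ∈ T, ∀ w, pair w t ∉ h := by
  obtain ⟨M, hc, hM, W, l, α, T, l', τ, hW, hT, t, ht, hn⟩ := main
  obtain ⟨h, ⟨h1, h2⟩, -⟩ := hW.2 T l' τ hT.1
  exact ⟨M, hc, hM, W, l, α, T, l', τ, h, hW, hT, h1, h2, t, ht, hn h h1 h2⟩

end Pool.Agent.Results.MP_bed2f3_lc.WeaklyUnorderedTreesNotCovered
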